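import Pool.Agent.S12159

set_option autoImplicit false

/-!
# Every interval with one point removed tiles the three-dimensional integer lattice

A copy of a tile `T` (a set of integers) in `ℤ^d` is the image of `T × {0}^{d-1}` under an
isometry of `ℤ^d`: a translation composed with a permutation and sign changes of the
coordinates.  `T` tiles `ℤ^d` if `ℤ^d` is a disjoint union of copies of `T`.
The theorem says that for all integers `a ≤ c ≤ b` with `a < b` the set `{a, ..., b} \ {c}`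
tiles `ℤ^3`; so one dimension works for all of them.
-/

namespace Pool.Agent.Results.MP_3bfddb_co.ThreeDimensions

/-- the isometry of `ℤ^d` that permutes the coordinates by `π`, changes signs by `ε` and
translates by `v` -/
def isom (d : ℕ) (v : Fin d → ℤ) (ε : Fin d → ℤˣ) (π : Equiv.Perm (Fin d))
    (x : Fin d → ℤ) : Fin d → ℤ :=
  fun i => v i + (ε i : ℤ) * x (π i)

/-- `S` is a copy of the tile `T` in `ℤ^d`: the image of `T × {0}^{d-1}` under an isometry -/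
def IsCopy (d : ℕ) [NeZero d] (T : Set ℤ) (S : Set (Fin d → ℤ)) : Prop :=
  ∃ (v : Fin d → ℤ) (ε : Fin d → ℤˣ) (π : Equiv.Perm (Fin d)),
    S = (fun t : ℤ => isom d v ε π (Pi.single (0 : Fin d) t)) '' T

/-- `T` tiles `ℤ^d`: there is a family of copies of `T` such that every point of `ℤ^d` lies in
exactly one of them -/
def Tiles (d : ℕ) [NeZero d] (T : Set ℤ) : Prop :=
  ∃ F : Set (Set (Fin d → ℤ)), (∀ S ∈ F, IsCopy d T S) ∧
    ∀ x : Fin d → ℤ, ∃! S : Set (Fin d → ℤ), S ∈ F ∧ x ∈ S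

/-- the interval from `a` to `b` with the point `c` removed -/
def punctured (a b c : ℤ) : Set ℤ := {t | a ≤ t ∧ t ≤ b ∧ t ≠ c}

theorem tiles_of (T : Set ℤ) (a : ℤ) (C : Set ((Fin 3 → ℤ) × ℤ × Fin 3))
    (hs : ∀ c ∈ C, c.2.1 = 1 ∨ c.2.1 = -1)
    (h : ∀ x : Fin 3 → ℤ, ∃! c : (Fin 3 → ℤ) × ℤ × Fin 3, c ∈ C ∧
      ∃ i : ℤ, a + i ∈ T ∧ x = c.1 + (c.2.1 * i) • (Pi.single c.2.2 (1 : ℤ) : Fin 3 → ℤ)) :
    Tiles 3 T := by
  refine ⟨{S | ∃ c ∈ C, S = {x | ∃ i : ℤ, a + i ∈ T ∧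
    x = c.1 + (c.2.1 * i) • (Pi.single c.2.2 (1 : ℤ) : Fin 3 → ℤ)}}, ?_, ?_⟩
  · rintro S ⟨⟨v, s, e⟩, hc, rfl⟩
    obtain ⟨ε, hε⟩ : ∃ ε : ℤˣ, (ε : ℤ) = s := by
      rcases hs _ hc with h1 | h1
      · exact ⟨1, by simpa using h1.symm⟩
      · exact ⟨-1, by simpa using h1.symm⟩
    subst hε
    refine ⟨v - ((ε : ℤ) * a) • (Pi.single e (1 : ℤ) : Fin 3 → ℤ), fun _ => ε,
      Equiv.swap e 0, ?_⟩
    have key : ∀ i : ℤ, isom 3 (v - ((ε : ℤ) * a) • (Pi.single e (1 : ℤ) : Fin 3 → ℤ))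
        (fun _ => ε) (Equiv.swap e 0) (Pi.single (0 : Fin 3) (a + i)) =
        v + ((ε : ℤ) * i) • (Pi.single e (1 : ℤ) : Fin 3 → ℤ) := by
      intro i
      funext j
      simp only [isom, Pi.sub_apply, Pi.add_apply, Pi.smul_apply, smul_eq_mul]
      by_cases hj : j = e
      · subst hj
        rw [Equiv.swap_apply_left, Pi.single_eq_same, Pi.single_eq_same]
        ring
      · have h1 : Equiv.swap e 0 j ≠ 0 := by
          intro h0
          apply hj
          have : Equiv.swap e 0 (Equiv.swap e 0 j) = Equiv.swap e 0 0 := by rw [h0]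
          rw [Equiv.swap_apply_self, Equiv.swap_apply_right] at this
          exact this
        rw [Pi.single_eq_of_ne h1, Pi.single_eq_of_ne hj]
        ring
    ext x
    constructor
    · rintro ⟨i, hi, rfl⟩
      exact ⟨a + i, hi, key i⟩
    · rintro ⟨t, ht, rfl⟩
      refine ⟨t - a, by simpa using ht, ?_⟩
      rw [← key]
      simp
  · intro x
    obtain ⟨c, ⟨hc, i, hi, hx⟩, huniq⟩ := h x
    refine ⟨_, ⟨⟨c, hc, rfl⟩, ⟨i, hi, hx⟩⟩, ?_⟩
    rintro S ⟨⟨c', hc', rfl⟩, hx'⟩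
    have := huniq c' ⟨hc', hx'⟩
    subst this
    rfl

theorem tiles_interval (T : Set ℤ) (a m : ℤ) (hm : 1 ≤ m)
    (hT : ∀ i : ℤ, a + i ∈ T ↔ 0 ≤ i ∧ i < m) : Tiles 3 T := by
  apply tiles_of T a {c | c.2.1 = 1 ∧ c.2.2 = 0 ∧ m ∣ c.1 0}
  · rintro c ⟨h1, -⟩
    exact Or.inl h1
  · intro x
    refine ⟨(x - (x 0 % m) • (Pi.single (0 : Fin 3) (1 : ℤ) : Fin 3 → ℤ), 1, 0),
      ⟨⟨rfl, rfl, ?_⟩, x 0 % m, ?_, ?_⟩, ?_⟩
    · simp only [Pi.sub_apply, Pi.smul_apply, Pi.single_eq_same, smul_eq_mul, mul_one]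
      exact Int.dvd_self_sub_emod
    · rw [hT]
      exact ⟨Int.emod_nonneg _ (by omega), Int.emod_lt_of_pos _ (by omega)⟩
    · simp
    · rintro ⟨v, s, e⟩ ⟨⟨h1, h2, h3⟩, i, hi, hx⟩
      simp only at h1 h2 h3 hx
      subst h1 h2
      rw [hT] at hi
      have hx0 : x 0 = v 0 + i := by
        have := congrFun hx 0
        simpa using this
      have hmod : x 0 % m = i := by
        rw [hx0]
        obtain ⟨q, hq⟩ := h3
        rw [hq, add_comm, Int.add_mul_emod_self_left]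
        exact Int.emod_eq_of_lt hi.1 hi.2
      rw [hmod, hx]
      simp

/-- **Theorem.**  Every interval of integers with one point removed, `{a, ..., b} \ {c}` with
`a ≤ c ≤ b` and `a < b` (so that the set is not empty), tiles `ℤ^3`. -/
theorem result (a b c : ℤ) (hac : a ≤ c) (hcb : c ≤ b) (hab : a < b) :
    Tiles 3 (punctured a b c) := by
  rcases eq_or_lt_of_le hac with h1 | h1
  · apply tiles_interval _ (a + 1) (b - a) (by omega)
    intro i
    simp only [punctured, Set.mem_ofPred_eq]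
    constructor
    · rintro ⟨h2, h3, h4⟩
      constructor <;> omega
    · rintro ⟨h2, h3⟩
      refine ⟨?_, ?_, ?_⟩ <;> omega
  rcases eq_or_lt_of_le hcb with h2 | h2
  · apply tiles_interval _ a (b - a) (by omega)
    intro i
    simp only [punctured, Set.mem_ofPred_eq]
    constructor
    · rintro ⟨h3, h4, h5⟩
      constructor <;> omega
    · rintro ⟨h3, h4⟩
      refine ⟨?_, ?_, ?_⟩ <;> omega
  obtain ⟨k, hk⟩ : ∃ k : ℕ, (k : ℤ) = c - a := ⟨(c - a).toNat, Int.toNat_of_nonneg (by omega)⟩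
  obtain ⟨l, hl⟩ : ∃ l : ℕ, (l : ℤ) = b - c := ⟨(b - c).toNat, Int.toNat_of_nonneg (by omega)⟩
  obtain ⟨C, hC1, hC2⟩ := Pool.Agent.S12159.result k l (by omega) (by omega)
  apply tiles_of _ a C hC1
  intro x
  obtain ⟨q, ⟨hq1, i, hi, hx⟩, huniq⟩ := hC2 x
  refine ⟨q, ⟨hq1, i, ?_, hx⟩, ?_⟩
  · simp only [punctured, Set.mem_ofPred_eq]
    refine ⟨?_, ?_, ?_⟩ <;> omega
  · rintro q' ⟨hq', i', hi', hx'⟩
    apply huniq q'
    refine ⟨hq', i', ?_, hx'⟩
    simp only [punctured, Set.mem_ofPred_eq] at hi'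
    omega

end Pool.Agent.Results.MP_3bfddb_co.ThreeDimensions
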